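import Pool.Agent.R944.DB.Stm

/-! DB-DEP: a parent function of depth at most two gives a forest of diameter at most four
(helper806). -/

set_option autoImplicit false

namespace Pool.Agent.R944.DB.Dep

open Pool.Agent.R944.DB SimpleGraph

section

variable {V : Type} (g : V → Option V)

/-- the height -/
def ht (v : V) : ℕ := (g v).elim 0 fun b => (g b).elim 1 fun _ => 2

/-- the root -/
def rt (v : V) : V := (g v).elim v fun b => (g b).elim b fun c => c

variable {g}

theorem ht_succ (hd : ∀ a b c d, g a = some b → g b = some c → g c = some d → False) {v b : V}
    (h : g v = some b) : ht g v = ht g b + 1 := by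
  cases hb : g b with
  | none => simp [ht, h, hb]
  | some c =>
    cases hc : g c with
    | none => simp [ht, h, hb, hc]
    | some d => exact absurd (hd v b c d h hb hc) id

theorem rt_eq (hd : ∀ a b c d, g a = some b → g b = some c → g c = some d → False) {v b : V}
    (h : g v = some b) : rt g v = rt g b := by
  cases hb : g b with
  | none => simp [rt, h, hb]
  | some c =>
    cases hc : g c with
    | none => simp [rt, h, hb, hc]
    | some d => exact absurd (hd v b c d h hb hc) id

end

theorem main : S_DEP := by
  intro V K g hK hd
  have hadj : ∀ x w, K.Adj x w → g x = some w ∨ ht g w = ht g x + 1 := by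
    intro x w h
    rcases (hK x w).1 h with h1 | h1
    · exact Or.inl h1
    · exact Or.inr (ht_succ hd h1)
  refine ⟨?_, fun u v huv => ?_⟩
  · intro v c hc
    classical
    obtain ⟨x, hx, hmax⟩ := c.support.toFinset.exists_max_image (ht g)
      ⟨v, List.mem_toFinset.2 c.start_mem_support⟩
    rw [List.mem_toFinset] at hx
    have hc' : (c.rotate x hx).IsCycle := hc.rotate hx
    have hnil : ¬ (c.rotate x hx).Nil := hc'.not_nil
    have key : ∀ w, w ∈ (c.rotate x hx).support → K.Adj x w → g x = some w := by
      intro w hw hxw
      rcases hadj x w hxw with h | h
      · exact h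
      · rw [Walk.mem_support_rotate_iff] at hw
        have := hmax w (List.mem_toFinset.2 hw)
        omega
    have h1 := key (c.rotate x hx).snd (Walk.getVert_mem_support _ _) (Walk.adj_snd hnil)
    have h2 := key (c.rotate x hx).penultimate (Walk.getVert_mem_support _ _)
      (Walk.adj_penultimate hnil).symm
    apply hc'.snd_ne_penultimate
    rw [h1] at h2
    exact Option.some.inj h2
  · have hroot : ∀ a b, K.Adj a b → rt g a = rt g b := by
      intro a b h
      rcases (hK a b).1 h with h1 | h1
      · exact rt_eq hd h1
      · exact (rt_eq hd h1).symm
    have hr : rt g u = rt g v := by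
      obtain ⟨p⟩ := huv
      induction p with
      | nil => rfl
      | cons h p ih => exact (hroot _ _ h).trans ih
    have hwalk : ∀ a w, rt g a = w → ∃ p : K.Walk a w, p.length ≤ 2 := by
      intro a w hw
      cases ha : g a with
      | none =>
        have e : rt g a = a := by simp [rt, ha]
        rw [e] at hw
        subst hw
        exact ⟨Walk.nil, by simp⟩
      | some b =>
        have hab : K.Adj a b := (hK a b).2 (Or.inl ha)
        cases hb : g b with
        | none =>
          have e : rt g a = b := by simp [rt, ha, hb]
          rw [e] at hw
          subst hw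
          exact ⟨Walk.cons hab Walk.nil, by simp⟩
        | some c =>
          have e : rt g a = c := by simp [rt, ha, hb]
          rw [e] at hw
          subst hw
          exact ⟨Walk.cons hab (Walk.cons ((hK b c).2 (Or.inl hb)) Walk.nil), by simp⟩
    obtain ⟨p, hp⟩ := hwalk u (rt g v) hr
    obtain ⟨q, hq⟩ := hwalk v (rt g v) rfl
    refine (dist_le (p.append q.reverse)).trans ?_
    rw [Walk.length_append, Walk.length_reverse]
    omega

end Pool.Agent.R944.DB.Dep
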