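import Pool.Agent.R944.DB.Stm

/-!
# Splitting a functional graph
-/

namespace Pool.Agent.R944.DB.Fun

open Finset Pool.Agent.R944.DB

lemma third : ∀ c1 c2 : Fin 3, ∃ c : Fin 3, c ≠ c1 ∧ c ≠ c2 := by decide

lemma few {V : Type} [DecidableEq V] (f : V → Option V) (S : Finset V) (hS : S.Nonempty) :
    ∃ w ∈ S, (S.filter (fun v => f v = some w)).card ≤ 1 := by
  have h : ∑ w ∈ S, (S.filter (fun v => f v = some w)).card ≤ ∑ w ∈ S, 1 := by
    have e : ∑ w ∈ S, (S.filter (fun v => f v = some w)).card =
        ∑ v ∈ S, (S.filter (fun w => f v = some w)).card := by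
      simp only [Finset.card_filter]
      exact Finset.sum_comm
    rw [e]
    apply Finset.sum_le_sum
    intro v _
    rw [Finset.card_le_one]
    intro a ha b hb
    rw [Finset.mem_filter] at ha hb
    have := ha.2.symm.trans hb.2
    exact Option.some.inj this
  exact Finset.exists_le_of_sum_le hS h

lemma kap {V : Type} [DecidableEq V] (f : V → Option V) (hf : ∀ v, f v ≠ some v)
    (S : Finset V) : ∃ κ : V → Fin 3, ∀ v ∈ S, ∀ b ∈ S, f v = some b → κ v ≠ κ b := by
  classical
  induction S using Finset.strongInduction with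
  | H S ih =>
    rcases S.eq_empty_or_nonempty with rfl | hS
    · exact ⟨fun _ => 0, by simp⟩
    obtain ⟨w, hw, hc⟩ := few f S hS
    obtain ⟨κ, hκ⟩ := ih (S.erase w) (Finset.erase_ssubset hw)
    rw [Finset.card_le_one] at hc
    obtain ⟨c, hc1, hc2⟩ := third ((f w).elim 0 κ)
      (if h : ∃ u ∈ S, f u = some w then κ h.choose else 0)
    refine ⟨Function.update κ w c, ?_⟩
    intro v hv b hb hvb
    by_cases hvw : v = w
    · subst hvw
      have hbv : b ≠ v := by rintro rfl; exact hf _ hvb
      rw [Function.update_self, Function.update_of_ne hbv]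
      rw [hvb] at hc1
      exact hc1
    · by_cases hbw : b = w
      · subst hbw
        rw [Function.update_self, Function.update_of_ne hvw]
        have hex : ∃ u ∈ S, f u = some b := ⟨v, hv, hvb⟩
        rw [dif_pos hex] at hc2
        have hu := hex.choose_spec
        have : hex.choose = v := hc _ (by rw [Finset.mem_filter]; exact hu) _
          (by rw [Finset.mem_filter]; exact ⟨hv, hvb⟩)
        rw [this] at hc2
        exact fun h => hc2 h.symm
      · rw [Function.update_of_ne hvw, Function.update_of_ne hbw]
        exact hκ v (Finset.mem_erase.mpr ⟨hvw, hv⟩) b (Finset.mem_erase.mpr ⟨hbw, hb⟩) hvb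

theorem main : S_FUN := by
  classical
  intro V _ f hf
  obtain ⟨κ, hκ⟩ := kap f hf Finset.univ
  refine ⟨fun v => match f v with | some b => decide (κ v < κ b) | none => false, ?_⟩
  intro a b c d hab hbc hcd
  have h1 := hκ a (Finset.mem_univ _) b (Finset.mem_univ _) hab
  have h2 := hκ b (Finset.mem_univ _) c (Finset.mem_univ _) hbc
  have h3 := hκ c (Finset.mem_univ _) d (Finset.mem_univ _) hcd
  simp only [hab, hbc, hcd, decide_eq_decide]
  rintro ⟨e1, e2⟩
  generalize κ a = x at *
  generalize κ b = y at *
  generalize κ c = z at *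
  generalize κ d = t at *
  have hx := x.isLt
  have hy := y.isLt
  have hz := z.isLt
  have ht := t.isLt
  simp only [Fin.lt_def, ne_eq, Fin.ext_iff] at *
  omega

end Pool.Agent.R944.DB.Fun
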