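import Pool.Agent.R944.DB.Stm

/-!
# Greedy colouring with nine colours
-/

namespace Pool.Agent.R944.DB.Gre

open Finset Pool.Agent.R944.DB

variable {V : Type} [DecidableEq V]

lemma greedy (T : Finset V) (Y : V → Finset (Fin 9)) (F : Finset (Fin 9))
    (h : ∀ u ∈ T, (Y u).card + F.card + T.card ≤ 9) :
    ∃ g : V → Fin 9, Set.InjOn g T ∧ ∀ u ∈ T, g u ∉ Y u ∧ g u ∉ F := by
  induction T using Finset.induction_on with
  | empty => exact ⟨fun _ => 0, by simp, by simp⟩
  | insert a T ha ih =>
    have hcard := Finset.card_insert_of_notMem ha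
    obtain ⟨g, hg1, hg2⟩ := ih (fun u hu => by
      have := h u (Finset.mem_insert_of_mem hu)
      omega)
    have hlt : (Y a ∪ F ∪ T.image g).card < (Finset.univ : Finset (Fin 9)).card := by
      have h1 := Finset.card_union_le (Y a ∪ F) (T.image g)
      have h2 := Finset.card_union_le (Y a) F
      have h3 : (T.image g).card ≤ T.card := Finset.card_image_le
      have h4 := h a (Finset.mem_insert_self a T)
      rw [Finset.card_univ, Fintype.card_fin]
      omega
    obtain ⟨col, -, hcol⟩ := Finset.exists_mem_notMem_of_card_lt_card hlt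
    simp only [Finset.mem_union, Finset.mem_image, not_or, not_exists, not_and] at hcol
    refine ⟨Function.update g a col, ?_, ?_⟩
    · intro x hx y hy hxy
      simp only [Finset.coe_insert, Set.mem_insert_iff, Finset.mem_coe] at hx hy
      by_cases hxa : x = a
      · by_cases hya : y = a
        · rw [hxa, hya]
        · have hyT : y ∈ T := hy.resolve_left hya
          rw [hxa, Function.update_self, Function.update_of_ne hya] at hxy
          exact absurd hxy.symm (hcol.2 y hyT)
      · have hxT : x ∈ T := hx.resolve_left hxa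
        by_cases hya : y = a
        · rw [hya, Function.update_self, Function.update_of_ne hxa] at hxy
          exact absurd hxy (hcol.2 x hxT)
        · rw [Function.update_of_ne hxa, Function.update_of_ne hya] at hxy
          exact hg1 hxT (hy.resolve_left hya) hxy
    · intro u hu
      by_cases hua : u = a
      · rw [hua, Function.update_self]
        exact hcol.1
      · rw [Function.update_of_ne hua]
        exact hg2 u (Finset.mem_of_mem_insert_of_ne hu hua)

lemma local6 (S : Finset V) (X Z : V → Finset (Fin 9)) (hS : S.card ≤ 6)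
    (hZX : ∀ u ∈ S, Z u ⊆ X u) (hX : ∀ u ∈ S, (X u).card ≤ 6) (hZ : ∀ u ∈ S, (Z u).card ≤ 3) :
    ∃ g : V → Fin 9, Set.InjOn g S ∧ (∀ u ∈ S, g u ∉ Z u) ∧
      ((S.filter (fun u => g u ∈ X u)).image g).card ≤ 3 := by
  obtain ⟨S1, hS1, hc1⟩ := Finset.exists_subset_card_eq (s := S) (n := min 3 S.card)
    (min_le_right _ _)
  obtain ⟨g1, i1, a1⟩ := greedy S1 X ∅ (fun u hu => by
    have := hX u (hS1 hu)
    rw [Finset.card_empty]; omega)
  have hc2 : (S \ S1).card ≤ 3 := by
    rw [Finset.card_sdiff_of_subset hS1]; omega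
  have hF : (S1.image g1).card ≤ 3 := Finset.card_image_le.trans (by omega)
  obtain ⟨g2, i2, a2⟩ := greedy (S \ S1) Z (S1.image g1) (fun u hu => by
    have := hZ u (Finset.mem_sdiff.mp hu).1
    omega)
  refine ⟨fun u => if u ∈ S1 then g1 u else g2 u, ?_, ?_, ?_⟩
  · intro x hx y hy hxy
    simp only at hxy
    rw [Finset.mem_coe] at hx hy
    by_cases hx1 : x ∈ S1
    · by_cases hy1 : y ∈ S1
      · rw [if_pos hx1, if_pos hy1] at hxy
        exact i1 hx1 hy1 hxy
      · rw [if_pos hx1, if_neg hy1] at hxy
        exfalso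
        apply (a2 y (Finset.mem_sdiff.mpr ⟨hy, hy1⟩)).2
        rw [← hxy]
        exact Finset.mem_image_of_mem g1 hx1
    · by_cases hy1 : y ∈ S1
      · rw [if_neg hx1, if_pos hy1] at hxy
        exfalso
        apply (a2 x (Finset.mem_sdiff.mpr ⟨hx, hx1⟩)).2
        rw [hxy]
        exact Finset.mem_image_of_mem g1 hy1
      · rw [if_neg hx1, if_neg hy1] at hxy
        exact i2 (Finset.mem_coe.mpr (Finset.mem_sdiff.mpr ⟨hx, hx1⟩))
          (Finset.mem_coe.mpr (Finset.mem_sdiff.mpr ⟨hy, hy1⟩)) hxy
  · intro u hu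
    by_cases hu1 : u ∈ S1
    · simp only [hu1, if_true]
      exact fun h => (a1 u hu1).1 (hZX u hu h)
    · simp only [hu1, if_false]
      exact (a2 u (Finset.mem_sdiff.mpr ⟨hu, hu1⟩)).1
  · refine Finset.card_image_le.trans (le_trans (Finset.card_le_card ?_) hc2)
    intro u hu
    rw [Finset.mem_filter] at hu
    rw [Finset.mem_sdiff]
    refine ⟨hu.1, fun hu1 => ?_⟩
    have h2 := hu.2
    simp only [hu1, if_true] at h2
    exact (a1 u hu1).1 h2

/-- colours at `u` -/
def Xs (ho : V → Finset V) (c : V → V → Fin 9) (u : V) : Finset (Fin 9) := (ho u).image (c u)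

/-- repeated colours at `u` -/
def Zs (ho : V → Finset V) (c : V → V → Fin 9) (u : V) : Finset (Fin 9) :=
  ((ho u).filter (fun x => c u x ∈ Xs ho c x)).image (c u)

/-- the invariant -/
def Good (ho : V → Finset V) (c : V → V → Fin 9) (w : V) : Prop :=
  Set.InjOn (c w) (ho w) ∧ (∀ u ∈ ho w, c w u ∉ Zs ho c u) ∧ (Zs ho c w).card ≤ 3

lemma Zs_sub (ho : V → Finset V) (c : V → V → Fin 9) (u : V) : Zs ho c u ⊆ Xs ho c u := by
  unfold Zs Xs
  exact Finset.image_subset_image (Finset.filter_subset _ _)

lemma Xs_congr {ho : V → Finset V} {c c' : V → V → Fin 9} {u : V} (h : c u = c' u) :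
    Xs ho c u = Xs ho c' u := by
  unfold Xs; rw [h]

lemma Zs_congr {ho : V → Finset V} {c c' : V → V → Fin 9} {u : V} (h : c u = c' u)
    (h2 : ∀ x ∈ ho u, c x = c' x) : Zs ho c u = Zs ho c' u := by
  unfold Zs
  rw [h]
  congr 1
  apply Finset.filter_congr
  intro x hx
  rw [Xs_congr (h2 x hx)]

lemma step (pos : V → ℕ) (ho : V → Finset V) (h1 : ∀ w, ∀ u ∈ ho w, pos u < pos w)
    (h2 : ∀ w, (ho w).card ≤ 6) (n : ℕ) : ∃ c : V → V → Fin 9, ∀ w, pos w < n → Good ho c w := by
  induction n with
  | zero => exact ⟨fun _ _ => 0, fun w hw => absurd hw (Nat.not_lt_zero _)⟩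
  | succ n ih =>
    obtain ⟨c, hc⟩ := ih
    have hg : ∀ w, pos w = n → ∃ g : V → Fin 9, Set.InjOn g (ho w) ∧
        (∀ u ∈ ho w, g u ∉ Zs ho c u) ∧
        (((ho w).filter (fun u => g u ∈ Xs ho c u)).image g).card ≤ 3 := by
      intro w hw
      apply local6 (ho w) (Xs ho c) (Zs ho c) (h2 w)
      · intro u _; exact Zs_sub ho c u
      · intro u _; exact Finset.card_image_le.trans (h2 u)
      · intro u hu
        have := h1 w u hu
        exact (hc u (by omega)).2.2
    choose g hg1 hg2 hg3 using hg
    refine ⟨fun w => if h : pos w = n then g w h else c w, ?_⟩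
    have hlow : ∀ w, pos w < n → (fun w => if h : pos w = n then g w h else c w) w = c w := by
      intro w hw
      simp only [dif_neg (show ¬ pos w = n by omega)]
    intro w hw
    rcases Nat.lt_or_ge (pos w) n with hlt | hge
    · have e := hlow w hlt
      have eu : ∀ u ∈ ho w, (fun w => if h : pos w = n then g w h else c w) u = c u :=
        fun u hu => hlow u (by have := h1 w u hu; omega)
      unfold Good
      rw [Zs_congr e eu, e]
      refine ⟨(hc w hlt).1, fun u hu => ?_, (hc w hlt).2.2⟩
      rw [Zs_congr (eu u hu) (fun x hx => hlow x (by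
        have := h1 w u hu
        have := h1 u x hx
        omega))]
      exact (hc w hlt).2.1 u hu
    · have hwn : pos w = n := by omega
      have e : (fun w => if h : pos w = n then g w h else c w) w = g w hwn := by
        simp only [dif_pos hwn]
      have eu : ∀ u ∈ ho w, (fun w => if h : pos w = n then g w h else c w) u = c u :=
        fun u hu => hlow u (by have := h1 w u hu; omega)
      refine ⟨?_, ?_, ?_⟩
      · rw [e]; exact hg1 w hwn
      · intro u hu
        rw [Zs_congr (eu u hu) (fun x hx => hlow x (by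
          have := h1 w u hu
          have := h1 u x hx
          omega)), e]
        exact hg2 w hwn u hu
      · unfold Zs
        rw [e]
        have : (ho w).filter (fun x => g w hwn x ∈
            Xs ho (fun w => if h : pos w = n then g w h else c w) x) =
            (ho w).filter (fun u => g w hwn u ∈ Xs ho c u) := by
          apply Finset.filter_congr
          intro x hx
          rw [Xs_congr (eu x hx)]
        rw [this]
        exact hg3 w hwn

theorem main : S_GRE := by
  intro V _ _ pos ho h1 h2
  obtain ⟨c, hc⟩ := step pos ho h1 h2 (Finset.univ.sup pos + 1)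
  have hg : ∀ w, Good ho c w := fun w =>
    hc w (Nat.lt_succ_of_le (Finset.le_sup (f := pos) (Finset.mem_univ w)))
  refine ⟨c, fun w => (hg w).1, ?_⟩
  rintro w u x y hu hx hy ⟨e1, e2⟩
  apply (hg w).2.1 u hu
  unfold Zs
  rw [e1]
  apply Finset.mem_image_of_mem
  rw [Finset.mem_filter]
  refine ⟨hx, ?_⟩
  rw [e2]
  exact Finset.mem_image_of_mem _ hy

end Pool.Agent.R944.DB.Gre
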