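import Pool.Agent.R944.DB.Stm

namespace Pool.Agent.R944.DB.Hal

open Finset

lemma block (n : ℕ) (hn : 1 ≤ n) : (1:ℚ)/2 ≤ ∑ i ∈ Ioc n (2*n), (1:ℚ)/(i:ℚ) := by
  have hn' : (1:ℚ) ≤ n := by exact_mod_cast hn
  calc (1:ℚ)/2 = ∑ i ∈ Ioc n (2*n), (1:ℚ)/((2*n : ℕ):ℚ) := by
        rw [sum_const, Nat.card_Ioc, nsmul_eq_mul, show 2*n - n = n by omega]
        push_cast
        field_simp
    _ ≤ _ := by
        apply sum_le_sum
        intro i hi
        rw [mem_Ioc] at hi
        have h1 : (0:ℚ) < i := by exact_mod_cast (by omega : 0 < i)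
        have h2 : (i:ℚ) ≤ ((2*n:ℕ):ℚ) := by exact_mod_cast hi.2
        exact one_div_le_one_div_of_le h1 h2

lemma blocks (m : ℕ) : (m:ℚ)/2 ≤ ∑ i ∈ Ioc (4:ℕ) (2^(m+2)), (1:ℚ)/(i:ℚ) := by
  induction m with
  | zero => simp
  | succ m ih =>
    have h1 : 4 ≤ 2^(m+2) := by
      calc 4 = 2^2 := by norm_num
        _ ≤ 2^(m+2) := Nat.pow_le_pow_right (by norm_num) (by omega)
    have h2 : 2^(m+1+2) = 2 * 2^(m+2) := by ring
    rw [h2, ← Finset.sum_Ioc_consecutive _ h1 (by omega)]
    have h3 := block (2^(m+2)) (by omega)
    push_cast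
    linarith

lemma harm : (5:ℚ) ≤ ∑ i ∈ Ioc (4:ℕ) 4096, (1:ℚ)/(i:ℚ) := by
  have := blocks 10
  norm_num at this ⊢
  exact this

section
variable {V : Type} [Fintype V] [DecidableEq V] (out : V → Finset V) (pos : V → ℕ)

/-- rank -/
def rk (v w : V) : ℕ := ((out v).filter (fun u => pos u ≤ pos w)).card
/-- backward degree -/
def bd (v : V) : ℕ := ((out v).filter (fun u => pos u < pos v)).card
/-- forward set -/
def fwd (v : V) : Finset V := (out v).filter (fun u => pos v < pos u)

variable {out pos}

lemma inner (hpos : Function.Injective pos) (hout : ∀ v, v ∉ out v) (v : V)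
    (hn : 4096 ≤ (out v).card) (hb : bd out pos v ≤ 4) :
    (5:ℚ) ≤ ∑ w ∈ fwd out pos v, (1:ℚ)/(rk out pos v w : ℚ) := by
  have hinj : Set.InjOn (rk out pos v) (fwd out pos v) := by
    have key : ∀ w w', w' ∈ out v → pos w < pos w' → rk out pos v w < rk out pos v w' := by
      intro w w' hw' h
      apply card_lt_card
      rw [ssubset_iff_of_subset]
      · exact ⟨w', by simp [hw'], by simp [hw', h]⟩
      · intro u hu
        rw [mem_filter] at hu ⊢
        exact ⟨hu.1, by omega⟩
    intro w hw w' hw' h
    simp only [fwd, coe_filter, Set.mem_ofPred_eq] at hw hw'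
    rcases lt_trichotomy (pos w) (pos w') with h1 | h1 | h1
    · have := key w w' hw'.1 h1; omega
    · exact hpos h1
    · have := key w' w hw.1 h1; omega
  have hcard : (fwd out pos v).card + bd out pos v = (out v).card := by
    unfold fwd bd
    rw [add_comm, ← Finset.card_filter_add_card_filter_not (s := out v) (fun u => pos u < pos v)]
    congr 1
    apply congrArg
    apply filter_congr
    intro u hu
    have : pos u ≠ pos v := fun h => hout v (by rw [hpos h] at hu; exact hu)
    omega
  have himg : (fwd out pos v).image (rk out pos v) = Ioc (bd out pos v) (out v).card := by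
    apply eq_of_subset_of_card_le
    · intro i hi
      rw [mem_image] at hi
      obtain ⟨w, hw, rfl⟩ := hi
      rw [fwd, mem_filter] at hw
      rw [mem_Ioc]
      constructor
      · apply card_lt_card
        rw [ssubset_iff_of_subset]
        · refine ⟨w, by simp [hw.1], ?_⟩
          simp only [mem_filter, not_and, not_lt]
          intro _; omega
        · intro u hu
          rw [mem_filter] at hu ⊢
          exact ⟨hu.1, by omega⟩
      · exact card_filter_le _ _
    · rw [card_image_of_injOn hinj, Nat.card_Ioc]; omega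
  have e1 : ∑ w ∈ fwd out pos v, (1:ℚ)/(rk out pos v w : ℚ) =
      ∑ i ∈ Ioc (bd out pos v) (out v).card, (1:ℚ)/(i:ℚ) := by
    rw [← himg, sum_image hinj]
  rw [e1]
  refine harm.trans ?_
  apply sum_le_sum_of_subset_of_nonneg
  · intro i hi
    rw [mem_Ioc] at hi ⊢
    omega
  · intro i _ _; positivity

end

theorem main : S_HALL := by
  intro V _ _ out pos k hk hpos hout hsum
  let Low : V → Prop := fun v => k < (out v).card + 5 ∧ bd out pos v ≤ 4
  let t : ({v // Low v} × Fin 5) → Finset V := fun x => fwd out pos x.1.1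
  have hall : ∀ A : Finset ({v // Low v} × Fin 5), A.card ≤ (A.biUnion t).card := by
    intro A
    set T := A.image (fun x => x.1.1) with hT
    have hlow : ∀ v ∈ T, Low v := by
      intro v hv
      rw [hT, mem_image] at hv
      obtain ⟨x, _, rfl⟩ := hv
      exact x.1.2
    have h1 : A.card ≤ 5 * T.card := by
      rw [hT]
      apply Finset.card_le_mul_card_image
      intro a _
      have : (A.filter (fun x => x.1.1 = a)).card ≤ (univ : Finset (Fin 5)).card := by
        apply Finset.card_le_card_of_injOn (fun x => x.2)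
        · intro x _; simp
        · intro x hx y hy hxy
          simp only [coe_filter, Set.mem_ofPred_eq] at hx hy
          apply Prod.ext
          · exact Subtype.ext (hx.2.trans hy.2.symm)
          · exact hxy
      simpa using this
    set N := T.biUnion (fwd out pos) with hN
    have h2 : N ⊆ A.biUnion t := by
      intro w hw
      rw [hN, mem_biUnion] at hw
      obtain ⟨v, hv, hw⟩ := hw
      rw [hT, mem_image] at hv
      obtain ⟨x, hx, rfl⟩ := hv
      rw [mem_biUnion]
      exact ⟨x, hx, hw⟩
    have h3 : (5:ℚ) * T.card ≤ N.card := by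
      calc (5:ℚ) * T.card = ∑ v ∈ T, (5:ℚ) := by rw [sum_const, nsmul_eq_mul]; ring
        _ ≤ ∑ v ∈ T, ∑ w ∈ fwd out pos v, (1:ℚ)/(rk out pos v w : ℚ) := by
            apply sum_le_sum
            intro v hv
            have := hlow v hv
            exact inner hpos hout v (by have := this.1; omega) this.2
        _ = ∑ v ∈ T, ∑ w ∈ N, if w ∈ fwd out pos v then (1:ℚ)/(rk out pos v w : ℚ) else 0 := by
            apply sum_congr rfl
            intro v hv
            rw [← sum_filter]
            apply sum_congr _ (fun _ _ => rfl)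
            ext w
            rw [mem_filter, hN, mem_biUnion]
            exact ⟨fun h => ⟨⟨v, hv, h⟩, h⟩, fun h => h.2⟩
        _ = ∑ w ∈ N, ∑ v ∈ T, if w ∈ fwd out pos v then (1:ℚ)/(rk out pos v w : ℚ) else 0 :=
            sum_comm
        _ ≤ ∑ w ∈ N, (1:ℚ) := by
            apply sum_le_sum
            intro w _
            refine le_trans ?_ (hsum w)
            rw [← sum_filter]
            apply sum_le_sum_of_subset_of_nonneg
            · intro v hv
              rw [mem_filter, fwd, mem_filter] at hv
              rw [mem_filter]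
              exact ⟨mem_univ _, hv.2.2, hv.2.1⟩
            · intro i _ _; positivity
        _ = N.card := by simp
    have h4 : 5 * T.card ≤ N.card := by exact_mod_cast h3
    exact h1.trans (h4.trans (card_le_card h2))
  obtain ⟨f, hf, hft⟩ := (Finset.all_card_le_biUnion_card_iff_exists_injective t).1 hall
  classical
  refine ⟨fun v i => if h : Low v then f (⟨v, h⟩, i) else v, ?_, ?_⟩
  · intro v h1 h2 i
    have h : Low v := ⟨h1, h2⟩
    simp only [dif_pos h]
    have := hft (⟨v, h⟩, i)
    simp only [t, fwd, mem_filter] at this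
    exact this
  · intro v v' i i' h1 h2 h1' h2' h
    have hv : Low v := ⟨h1, h2⟩
    have hv' : Low v' := ⟨h1', h2'⟩
    simp only [dif_pos hv, dif_pos hv'] at h
    have := hf h
    simp only [Prod.mk.injEq, Subtype.mk.injEq] at this
    exact this

end Pool.Agent.R944.DB.Hal
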