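import Pool.Agent.R944.DB.Stm

namespace Pool.Agent.R944.DB.Main

open Finset Classical

/-- splitting with an arbitrary index type -/
theorem splits_of_index {V : Type} (G : SimpleGraph V) (P : SimpleGraph V → Prop)
    {ι : Type} [Fintype ι] {m : ℕ} (hm : Fintype.card ι = m) (f : ι → SimpleGraph V)
    (h1 : ∀ u v, G.Adj u v ↔ ∃ i, (f i).Adj u v)
    (h2 : ∀ i j u v, (f i).Adj u v → (f j).Adj u v → i = j)
    (h3 : ∀ i, P (f i)) : Splits G P m := by
  let e : Fin m ≃ ι := (Fintype.equivFinOfCardEq hm).symm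
  refine ⟨fun i => f (e i), ?_, ?_, fun i => h3 _⟩
  · intro u v
    rw [h1]
    constructor
    · rintro ⟨i, hi⟩
      exact ⟨e.symm i, by simpa using hi⟩
    · rintro ⟨i, hi⟩
      exact ⟨e i, hi⟩
  · intro i j u v hi hj
    exact e.injective (h2 _ _ _ _ hi hj)

/-- an index function on a finset of card at most m -/
theorem exists_index {V : Type} [DecidableEq V] (S : Finset V) (m : ℕ) (hS : S.card ≤ m)
    (hm : 0 < m) : ∃ g : V → Fin m, Set.InjOn g S := by
  have : Nonempty (Fin m) := ⟨⟨0, hm⟩⟩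
  have hcard : Fintype.card S ≤ Fintype.card (Fin m) := by simpa using hS
  obtain ⟨e⟩ := Function.Embedding.nonempty_of_card_le hcard
  refine ⟨fun v => if h : v ∈ S then e ⟨v, h⟩ else Classical.arbitrary _, ?_⟩
  intro a ha b hb hab
  have ha' : a ∈ S := ha
  have hb' : b ∈ S := hb
  simp only [ha', hb', dif_pos] at hab
  have := e.injective hab
  exact congrArg Subtype.val this

/-- graph of a directed partial function -/
def pgraph {V : Type} (g : V → Option V) (hne : ∀ v, g v ≠ some v) : SimpleGraph V where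
  Adj u v := g u = some v ∨ g v = some u
  symm := ⟨fun _ _ h => Or.symm h⟩
  loopless := ⟨fun v h => by rcases h with h | h <;> exact hne v h⟩

theorem short_of_depth (hD : S_DEP) {V : Type} (g : V → Option V) (hne : ∀ v, g v ≠ some v)
    (h : ∀ a b c d, g a = some b → g b = some c → g c = some d → False) :
    Short 4 (pgraph g hne) := by
  obtain ⟨h1, h2⟩ := hD V (pgraph g hne) g (fun u v => Iff.rfl) h
  exact ⟨h1, h2⟩

/-- the orientation coming from a decomposition in forests -/
theorem exists_out (hP : S_PAR) {V : Type} [Fintype V] [DecidableEq V] (G : SimpleGraph V) (k : ℕ)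
    (h : Splits G (fun F => F.IsAcyclic) k) :
    ∃ out : V → Finset V, (∀ v, v ∉ out v) ∧ (∀ u v, u ∈ out v → v ∉ out u) ∧
      (∀ v, (out v).card ≤ k) ∧ ∀ u v, G.Adj u v ↔ (v ∈ out u ∨ u ∈ out v) := by
  obtain ⟨f, h1, h2, h3⟩ := h
  choose p hp1 hp2 using fun i => hP V (f i) (h3 i)
  refine ⟨fun v => univ.filter (fun u => ∃ i, p i v = some u), ?_, ?_, ?_, ?_⟩
  · intro v hv
    simp only [mem_filter, mem_univ, true_and] at hv
    obtain ⟨i, hi⟩ := hv
    exact hp2 i v v hi hi
  · intro u v hu hv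
    simp only [mem_filter, mem_univ, true_and] at hu hv
    obtain ⟨i, hi⟩ := hu
    obtain ⟨j, hj⟩ := hv
    have a1 : (f i).Adj v u := (hp1 i v u).2 (Or.inl hi)
    have a2 : (f j).Adj v u := (hp1 j v u).2 (Or.inr hj)
    have : i = j := h2 i j v u a1 a2
    subst this
    exact hp2 i v u hi hj
  · intro v
    have : (univ.filter (fun u => ∃ i, p i v = some u)) ⊆
        (univ : Finset (Fin k)).biUnion (fun i => (p i v).toFinset) := by
      intro u hu
      simp only [mem_filter, mem_univ, true_and] at hu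
      obtain ⟨i, hi⟩ := hu
      simp only [mem_biUnion, mem_univ, true_and]
      exact ⟨i, by simp [hi]⟩
    refine (card_le_card this).trans ?_
    refine (card_biUnion_le).trans ?_
    calc ∑ i : Fin k, (p i v).toFinset.card ≤ ∑ _i : Fin k, 1 := by
          apply sum_le_sum
          intro i _
          cases p i v <;> simp
      _ = k := by simp
  · intro u v
    rw [h1]
    simp only [mem_filter, mem_univ, true_and]
    constructor
    · rintro ⟨i, hi⟩
      rcases (hp1 i u v).1 hi with h | h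
      · exact Or.inl ⟨i, h⟩
      · exact Or.inr ⟨i, h⟩
    · rintro (⟨i, h⟩ | ⟨i, h⟩)
      · exact ⟨i, (hp1 i u v).2 (Or.inl h)⟩
      · exact ⟨i, (hp1 i u v).2 (Or.inr h)⟩

/-- the unique element of a finset with a property, as an option -/
noncomputable def pick {V : Type} (P : V → Prop) : Option V :=
  if h : ∃ u, P u then some h.choose else none

theorem pick_spec {V : Type} {P : V → Prop} {u : V} (h : pick P = some u) : P u := by
  unfold pick at h
  split_ifs at h with h'
  have := h'.choose_spec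
  rw [Option.some.injEq] at h
  rwa [h] at this

theorem pick_eq {V : Type} {P : V → Prop} (hu : ∀ a b, P a → P b → a = b) {u : V} (h : P u) :
    pick P = some u := by
  unfold pick
  have h' : ∃ u, P u := ⟨u, h⟩
  rw [dif_pos h']
  exact congrArg some (hu _ _ h'.choose_spec h)

theorem main (hP : S_PAR) (hD : S_DEP) (hS : S_SEL) (hG : S_GRE) (hF : S_FUN) : S_MAIN := by
  intro k hk V _ G hsp
  obtain ⟨out, o1, o2, o3, o4⟩ := exists_out hP G k hsp
  obtain ⟨pos, sel, s1, s2, s3, s4⟩ := hS V out k hk o1 o2 o3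
  let ho : V → Finset V := fun w => (sel w).filter (fun u => pos u < pos w) ∪
        univ.filter (fun v => w ∈ sel v ∧ pos v < pos w)
  have hho : ∀ w u, u ∈ ho w ↔ (pos u < pos w ∧ (u ∈ sel w ∨ w ∈ sel u)) := by
    intro w u
    simp only [ho, mem_union, mem_filter, mem_univ, true_and]
    tauto
  obtain ⟨c, c1, c2⟩ := hG V pos ho (fun w u hu => ((hho w u).1 hu).1) s4
  let lo : V → Finset V := fun v => out v \ sel v
  have hk5 : 0 < k - 5 := by omega
  choose idx hidx using fun v => exists_index (lo v) (k - 5) (by have := s3 v; show (out v \ sel v).card ≤ _; omega) hk5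
  have hlo : ∀ v u, u ∈ lo v ↔ u ∈ out v ∧ u ∉ sel v := by
    intro v u; simp [lo]
  -- parent functions for the part L
  let fL : Fin (k - 5) → V → Option V := fun i v => pick (fun u => u ∈ lo v ∧ idx v u = i)
  have fL_uniq : ∀ i v a b, (a ∈ lo v ∧ idx v a = i) → (b ∈ lo v ∧ idx v b = i) → a = b := by
    intro i v a b ha hb
    exact hidx v ha.1 hb.1 (ha.2.trans hb.2.symm)
  have fL_spec : ∀ i v u, fL i v = some u ↔ (u ∈ lo v ∧ idx v u = i) := by
    intro i v u
    exact ⟨fun h => pick_spec (P := fun u => u ∈ lo v ∧ idx v u = i) h, fun h => pick_eq (P := fun u => u ∈ lo v ∧ idx v u = i) (fL_uniq i v) h⟩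
  have fL_ne : ∀ i v, fL i v ≠ some v := by
    intro i v h
    exact o1 v ((hlo v v).1 ((fL_spec i v v).1 h).1).1
  choose χ hχ using fun i => hF V (fL i) (fL_ne i)
  -- parent functions of all classes
  let gH : Fin 9 → V → Option V := fun j w => pick (fun u => u ∈ ho w ∧ c w u = j)
  have gH_spec : ∀ j w u, gH j w = some u ↔ (u ∈ ho w ∧ c w u = j) := by
    intro j w u
    exact ⟨fun h => pick_spec (P := fun u => u ∈ ho w ∧ c w u = j) h, fun h => pick_eq (P := fun u => u ∈ ho w ∧ c w u = j) (fun a b ha hb => c1 w ha.1 hb.1 (ha.2.trans hb.2.symm)) h⟩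
  let gL : Fin (k - 5) × Bool → V → Option V := fun ib v => if χ ib.1 v = ib.2 then fL ib.1 v else none
  have gL_spec : ∀ ib v u, gL ib v = some u ↔ (χ ib.1 v = ib.2 ∧ u ∈ lo v ∧ idx v u = ib.1) := by
    intro ib v u
    simp only [gL]
    split_ifs with h
    · rw [fL_spec]; simp [h]
    · simp [h]
  let g : Fin 9 ⊕ (Fin (k - 5) × Bool) → V → Option V := Sum.elim gH gL
  have g_ne : ∀ i v, g i v ≠ some v := by
    rintro (j | ib) v h
    · have := (hho v v).1 ((gH_spec j v v).1 h).1
      exact lt_irrefl _ this.1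
    · exact o1 v ((hlo v v).1 ((gL_spec ib v v).1 h).2.1).1
  have g_depth : ∀ i a b cc d, g i a = some b → g i b = some cc → g i cc = some d → False := by
    rintro (j | ib) a b cc d h1 h2 h3
    · have h1' := (gH_spec j a b).1 h1
      have h2' := (gH_spec j b cc).1 h2
      have h3' := (gH_spec j cc d).1 h3
      exact c2 a b cc d h1'.1 h2'.1 h3'.1 ⟨by rw [h1'.2, h2'.2], by rw [h2'.2, h3'.2]⟩
    · have h1' := (gL_spec ib a b).1 h1
      have h2' := (gL_spec ib b cc).1 h2
      have h3' := (gL_spec ib cc d).1 h3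
      refine hχ ib.1 a b cc d ((fL_spec _ _ _).2 h1'.2) ((fL_spec _ _ _).2 h2'.2)
        ((fL_spec _ _ _).2 h3'.2) ⟨by rw [h1'.1, h2'.1], by rw [h2'.1, h3'.1]⟩
  -- every class only contains oriented edges
  have key : ∀ u v, v ∈ out u → ∃ i, g i u = some v ∨ g i v = some u := by
    intro u v hv
    by_cases hs : v ∈ sel u
    · have hne : pos u ≠ pos v := by
        intro h; have := s1 h; subst this; exact o1 u hv
      rcases lt_or_gt_of_ne hne with h | h
      · -- u earlier than v : u ∈ ho v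
        refine ⟨Sum.inl (c v u), Or.inr ?_⟩
        exact (gH_spec _ _ _).2 ⟨(hho v u).2 ⟨h, Or.inr hs⟩, rfl⟩
      · refine ⟨Sum.inl (c u v), Or.inl ?_⟩
        exact (gH_spec _ _ _).2 ⟨(hho u v).2 ⟨h, Or.inl hs⟩, rfl⟩
    · refine ⟨Sum.inr (idx u v, χ (idx u v) u), Or.inl ?_⟩
      exact (gL_spec _ _ _).2 ⟨rfl, (hlo u v).2 ⟨hv, hs⟩, rfl⟩
  have key2 : ∀ i u v, g i u = some v → G.Adj u v := by
    rintro (j | ib) u v h
    · have h1 := (hho u v).1 ((gH_spec j u v).1 h).1
      rw [o4]
      rcases h1.2 with h2 | h2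
      · exact Or.inl (s2 _ h2)
      · exact Or.inr (s2 _ h2)
    · have h1 := (hlo u v).1 ((gL_spec ib u v).1 h).2.1
      rw [o4]
      exact Or.inl h1.1
  -- the class of a parent arc is determined by the edge
  -- canonical description
  have detH : ∀ j u v, g (Sum.inl j) u = some v →
      (pos v < pos u ∧ (v ∈ sel u ∨ u ∈ sel v) ∧ c u v = j) := by
    intro j u v h
    have h1 := (gH_spec j u v).1 h
    have h2 := (hho u v).1 h1.1
    exact ⟨h2.1, h2.2, h1.2⟩
  have detL : ∀ ib u v, g (Sum.inr ib) u = some v →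
      (v ∈ out u ∧ v ∉ sel u ∧ idx u v = ib.1 ∧ χ ib.1 u = ib.2) := by
    intro ib u v h
    have h1 := (gL_spec ib u v).1 h
    have h2 := (hlo u v).1 h1.2.1
    exact ⟨h2.1, h2.2, h1.2.2, h1.1⟩
  have uniq1 : ∀ i j u v, g i u = some v → g j u = some v → i = j := by
    rintro (j1 | ib1) (j2 | ib2) u v h1 h2
    · have a := detH _ _ _ h1; have b := detH _ _ _ h2
      rw [← a.2.2, ← b.2.2]
    · exfalso
      have a := detH _ _ _ h1; have b := detL _ _ _ h2
      rcases a.2.1 with h | h
      · exact b.2.1 h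
      · exact o2 u v (s2 _ h) b.1
    · exfalso
      have a := detH _ _ _ h2; have b := detL _ _ _ h1
      rcases a.2.1 with h | h
      · exact b.2.1 h
      · exact o2 u v (s2 _ h) b.1
    · have a := detL _ _ _ h1; have b := detL _ _ _ h2
      have e1 : ib1.1 = ib2.1 := by rw [← a.2.2.1, ← b.2.2.1]
      have e2 : ib1.2 = ib2.2 := by rw [← a.2.2.2, ← b.2.2.2, e1]
      rw [Prod.ext e1 e2]
  have uniq2 : ∀ i j u v, g i u = some v → g j v = some u → False := by
    rintro (j1 | ib1) (j2 | ib2) u v h1 h2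
    · have a := detH _ _ _ h1; have b := detH _ _ _ h2
      exact absurd (a.1.trans b.1) (lt_irrefl _)
    · have a := detH _ _ _ h1; have b := detL _ _ _ h2
      rcases a.2.1 with h | h
      · exact o2 v u (s2 _ h) b.1
      · exact b.2.1 h
    · have a := detH _ _ _ h2; have b := detL _ _ _ h1
      rcases a.2.1 with h | h
      · exact o2 u v (s2 _ h) b.1
      · exact b.2.1 h
    · have a := detL _ _ _ h1; have b := detL _ _ _ h2
      exact o2 u v b.1 a.1
  have hcard : Fintype.card (Fin 9 ⊕ (Fin (k - 5) × Bool)) = 2 * k - 1 := by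
    simp only [Fintype.card_sum, Fintype.card_prod, Fintype.card_fin, Fintype.card_bool]
    omega
  refine splits_of_index G (Short 4) hcard (fun i => pgraph (g i) (g_ne i)) ?_ ?_ ?_
  · intro u v
    constructor
    · intro h
      rcases (o4 u v).1 h with h | h
      · exact key u v h
      · obtain ⟨i, hi⟩ := key v u h
        exact ⟨i, hi.symm⟩
    · rintro ⟨i, h | h⟩
      · exact key2 i u v h
      · exact (key2 i v u h).symm
  · intro i j u v h1 h2
    rcases h1 with h1 | h1 <;> rcases h2 with h2 | h2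
    · exact uniq1 i j u v h1 h2
    · exact (uniq2 i j u v h1 h2).elim
    · exact (uniq2 j i u v h2 h1).elim
    · exact uniq1 i j v u h1 h2
  · intro i
    exact short_of_depth hD (g i) (g_ne i) (g_depth i)

theorem short_mono {V : Type} {d : ℕ} (hd : 4 ≤ d) (F : SimpleGraph V) (h : Short 4 F) :
    Short d F := ⟨h.1, fun u v huv => (h.2 u v huv).trans hd⟩

theorem splits_mono {V : Type} (G : SimpleGraph V) {P Q : SimpleGraph V → Prop}
    (hPQ : ∀ F, P F → Q F) {m : ℕ} (h : Splits G P m) : Splits G Q m := by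
  obtain ⟨f, h1, h2, h3⟩ := h
  exact ⟨f, h1, h2, fun i => hPQ _ (h3 i)⟩

theorem final (hM : S_MAIN) :
    (∀ k, 4100 ≤ k → ∀ (V : Type) [Fintype V] (G : SimpleGraph V), arb G = k →
      arbD 4 G ≤ 2 * k - 1) ∧
    ¬ ∃ d, 4 ≤ d ∧ ∀ k, 1 ≤ k → ∃ (V : Type) (_ : Fintype V) (G : SimpleGraph V),
      arb G = k ∧ arbD d G = 2 * k := by
  have step : ∀ k, 4100 ≤ k → ∀ (V : Type) [Fintype V] (G : SimpleGraph V), arb G = k →
      Splits G (Short 4) (2 * k - 1) := by
    intro k hk V _ G hG
    apply hM k hk V G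
    have hne : {m | Splits G (fun F => F.IsAcyclic) m}.Nonempty := by
      by_contra hcon
      rw [Set.not_nonempty_iff_eq_empty] at hcon
      unfold arb at hG
      rw [hcon, Nat.sInf_empty] at hG
      omega
    have := Nat.sInf_mem hne
    unfold arb at hG
    rw [hG] at this
    exact this
  refine ⟨?_, ?_⟩
  · intro k hk V _ G hG
    exact Nat.sInf_le (step k hk V G hG)
  · rintro ⟨d, hd, h⟩
    obtain ⟨V, _, G, h1, h2⟩ := h 4100 (by norm_num)
    have h3 := step 4100 le_rfl V G h1
    have h4 : Splits G (Short d) (2 * 4100 - 1) := splits_mono G (short_mono hd) h3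
    have h5 : arbD d G ≤ 2 * 4100 - 1 := Nat.sInf_le h4
    rw [h2] at h5
    omega

end Pool.Agent.R944.DB.Main
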