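import Pool.Agent.R944.DB.Stm

/-! DB-ORD: the removal order (helper806). -/

set_option autoImplicit false

namespace Pool.Agent.R944.DB.Ord

open Finset Pool.Agent.R944.DB

theorem aux {V : Type} [DecidableEq V] (out : V → Finset V) :
    ∀ (n : ℕ) (R : Finset V), R.card = n → ∃ pos : V → ℕ, Set.InjOn pos R ∧
      (∀ v ∈ R, pos v < n) ∧
      ∀ w ∈ R, ∑ v ∈ R.filter (fun v => pos v < pos w ∧ w ∈ out v),
        (1 : ℚ) / (((((out v) ∩ R).filter (fun u => pos u ≤ pos w)).card : ℕ) : ℚ) ≤ 1 := by
  intro n
  induction n with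
  | zero =>
    intro R hR
    rw [card_eq_zero] at hR
    subst hR
    exact ⟨fun _ => 0, by simp, by simp, by simp⟩
  | succ n ih =>
    intro R hR
    have hne : R.Nonempty := by
      rw [← card_pos, hR]
      exact Nat.succ_pos n
    -- averaging
    obtain ⟨w0, hw0, hw0'⟩ : ∃ w ∈ R, ∑ v ∈ R.filter (fun v => w ∈ out v),
        (1 : ℚ) / ((((out v) ∩ R).card : ℕ) : ℚ) ≤ 1 := by
      refine exists_le_of_sum_le (f := fun w => ∑ v ∈ R.filter (fun v => w ∈ out v),
        (1 : ℚ) / ((((out v) ∩ R).card : ℕ) : ℚ)) (g := fun _ => (1 : ℚ)) hne ?_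
      have h1 : ∑ w ∈ R, ∑ v ∈ R.filter (fun v => w ∈ out v),
          (1 : ℚ) / ((((out v) ∩ R).card : ℕ) : ℚ) =
          ∑ v ∈ R, ∑ w ∈ R.filter (fun w => w ∈ out v),
            (1 : ℚ) / ((((out v) ∩ R).card : ℕ) : ℚ) := by
        simp only [sum_filter]
        exact sum_comm
      rw [h1]
      refine sum_le_sum fun v _ => ?_
      have h2 : R.filter (fun w => w ∈ out v) = out v ∩ R := by
        ext w
        rw [mem_filter, mem_inter]
        exact and_comm
      rw [sum_const, h2, nsmul_eq_mul]
      rcases Nat.eq_zero_or_pos (out v ∩ R).card with h0 | h0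
      · rw [h0]
        norm_num
      · have h3 : (((out v ∩ R).card : ℕ) : ℚ) ≠ 0 := by
          exact_mod_cast h0.ne'
        rw [mul_one_div_cancel h3]
    obtain ⟨pos, hinj, hlt, hsum⟩ := ih (R.erase w0) (by rw [card_erase_of_mem hw0, hR]; rfl)
    let pos' : V → ℕ := fun v => if v = w0 then n else pos v
    have hp0 : pos' w0 = n := if_pos rfl
    have hp1 : ∀ v, v ≠ w0 → pos' v = pos v := fun v hv => if_neg hv
    have hle : ∀ v ∈ R, pos' v ≤ n := by
      intro v hv
      by_cases h : v = w0
      · rw [h, hp0]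
      · rw [hp1 v h]
        exact (hlt v (mem_erase.2 ⟨h, hv⟩)).le
    refine ⟨pos', ?_, fun v hv => Nat.lt_succ_of_le (hle v hv), fun w hw => ?_⟩
    · intro a ha b hb hab
      by_cases h : a = w0 <;> by_cases h' : b = w0
      · rw [h, h']
      · rw [h, hp0, hp1 b h'] at hab
        have := hlt b (mem_erase.2 ⟨h', hb⟩)
        omega
      · rw [h', hp0, hp1 a h] at hab
        have := hlt a (mem_erase.2 ⟨h, ha⟩)
        omega
      · rw [hp1 a h, hp1 b h'] at hab
        exact hinj (mem_coe.2 (mem_erase.2 ⟨h, ha⟩)) (mem_coe.2 (mem_erase.2 ⟨h', hb⟩)) hab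
    · by_cases h : w = w0
      · subst h
        refine le_trans ?_ hw0'
        have h1 : ∀ v, ((out v ∩ R).filter fun u => pos' u ≤ pos' w) = out v ∩ R := by
          intro v
          refine filter_true_of_mem fun u hu => ?_
          rw [hp0]
          exact hle u (mem_inter.1 hu).2
        simp only [h1]
        refine sum_le_sum_of_subset_of_nonneg ?_ fun v _ _ => by positivity
        intro v hv
        rw [mem_filter] at hv ⊢
        exact ⟨hv.1, hv.2.2⟩
      · have hwR : w ∈ R.erase w0 := mem_erase.2 ⟨h, hw⟩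
        have hwlt := hlt w hwR
        refine le_trans (le_of_eq ?_) (hsum w hwR)
        have h1 : R.filter (fun v => pos' v < pos' w ∧ w ∈ out v) =
            (R.erase w0).filter (fun v => pos v < pos w ∧ w ∈ out v) := by
          ext v
          rw [mem_filter, mem_filter, mem_erase, hp1 w h]
          constructor
          · rintro ⟨h2, h3, h4⟩
            have hv : v ≠ w0 := by
              rintro rfl
              rw [hp0] at h3
              omega
            rw [hp1 v hv] at h3
            exact ⟨⟨hv, h2⟩, h3, h4⟩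
          · rintro ⟨⟨hv, h2⟩, h3, h4⟩
            rw [hp1 v hv]
            exact ⟨h2, h3, h4⟩
        rw [h1]
        refine sum_congr rfl fun v _ => ?_
        have h2 : ((out v ∩ R).filter fun u => pos' u ≤ pos' w) =
            ((out v ∩ R.erase w0).filter fun u => pos u ≤ pos w) := by
          ext u
          rw [mem_filter, mem_filter, mem_inter, mem_inter, mem_erase, hp1 w h]
          constructor
          · rintro ⟨⟨h2, h3⟩, h4⟩
            have hu : u ≠ w0 := by
              rintro rfl
              rw [hp0] at h4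
              omega
            rw [hp1 u hu] at h4
            exact ⟨⟨h2, hu, h3⟩, h4⟩
          · rintro ⟨⟨h2, hu, h3⟩, h4⟩
            rw [hp1 u hu]
            exact ⟨⟨h2, h3⟩, h4⟩
        rw [h2]

theorem main : S_ORD := by
  intro V _ _ out _
  obtain ⟨pos, hinj, -, hsum⟩ := aux out _ univ rfl
  refine ⟨pos, fun a b h => hinj (mem_coe.2 (mem_univ a)) (mem_coe.2 (mem_univ b)) h, fun w => ?_⟩
  have h := hsum w (mem_univ w)
  simp only [inter_univ] at h
  exact h

end Pool.Agent.R944.DB.Ord
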