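import Pool.Agent.R944.DB.Stm

/-! DB-PAR: an acyclic graph has a parent function (helper806). -/

set_option autoImplicit false

namespace Pool.Agent.R944.DB.Par

open Pool.Agent.R944.DB SimpleGraph

open Classical in
/-- the second vertex of the path -/
noncomputable def nx {V : Type} (F : SimpleGraph V) (v w : V) : V :=
  if h : ∃ p : F.Walk v w, p.IsPath then h.choose.snd else v

theorem nx_eq {V : Type} {F : SimpleGraph V} (hF : F.IsAcyclic) {v w : V} {p : F.Walk v w}
    (hp : p.IsPath) : nx F v w = p.snd := by
  have h : ∃ p : F.Walk v w, p.IsPath := ⟨p, hp⟩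
  unfold nx
  rw [dif_pos h]
  have h1 := congrArg Subtype.val ((hF.subsingleton_path v w).elim ⟨h.choose, h.choose_spec⟩ ⟨p, hp⟩)
  exact congrArg Walk.snd h1

theorem first {V : Type} {F : SimpleGraph V} {u w : V} (P : F.Walk u w) (hP : P.IsPath)
    (hne : u ≠ w) {v : V} (hv : P.snd = v) :
    ∃ (_ : F.Adj u v) (q : F.Walk v w), q.IsPath ∧ u ∉ q.support := by
  cases P with
  | nil => exact absurd rfl hne
  | cons hadj q =>
    rw [Walk.cons_isPath_iff] at hP
    rw [Walk.snd_cons] at hv
    subst hv
    exact ⟨hadj, q, hP.1, hP.2⟩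

theorem ne_of_supp {V : Type} {F : SimpleGraph V} {u v w : V} (P : F.Walk u w) (hP : P.IsPath)
    (h : F.Adj u v) (hv : v ∈ P.support) : u ≠ w := by
  rintro rfl
  rw [Walk.isPath_iff_eq_nil] at hP
  subst hP
  rw [Walk.support_nil, List.mem_singleton] at hv
  exact h.ne hv.symm

theorem main : S_PAR := by
  classical
  intro V _ F hF
  let r : V → V := fun v => (F.connectedComponentMk v).out
  have hr : ∀ v, F.Reachable v (r v) := by
    intro v
    have h1 : F.connectedComponentMk (r v) = F.connectedComponentMk v := Quot.out_eq _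
    exact (ConnectedComponent.exact h1).symm
  have hrr : ∀ u v, F.Adj u v → r u = r v := by
    intro u v h
    have h1 : F.connectedComponentMk u = F.connectedComponentMk v :=
      ConnectedComponent.sound h.reachable
    change (F.connectedComponentMk u).out = (F.connectedComponentMk v).out
    rw [h1]
  let p : V → Option V := fun v => if v = r v then none else some (nx F v (r v))
  have hp : ∀ u v, p u = some v → u ≠ r u ∧ nx F u (r u) = v := by
    intro u v h
    change (if u = r u then none else some (nx F u (r u))) = some v at h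
    by_cases h0 : u = r u
    · rw [if_pos h0] at h
      exact absurd h (by simp)
    · rw [if_neg h0] at h
      exact ⟨h0, Option.some.inj h⟩
  have hp' : ∀ u v, u ≠ r u → nx F u (r u) = v → p u = some v := by
    intro u v h h1
    change (if u = r u then none else some (nx F u (r u))) = some v
    rw [if_neg h, h1]
  -- the first step
  have hstep : ∀ u v, p u = some v → ∃ (h : F.Adj u v) (q : F.Walk v (r u)),
      q.IsPath ∧ u ∉ q.support := by
    intro u v h
    obtain ⟨h0, h1⟩ := hp u v h
    obtain ⟨P, hP⟩ := (hr u).exists_isPath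
    rw [nx_eq hF hP] at h1
    exact first P hP h0 h1
  refine ⟨p, fun u v => ⟨fun h => ?_, fun h => ?_⟩, fun u v h h' => ?_⟩
  · have hruv := hrr u v h
    obtain ⟨P, hP⟩ := (hr u).exists_isPath
    by_cases hv : v ∈ P.support
    · left
      have h1 := hF.eq_snd_of_adj_start hP h hv
      refine hp' u v (ne_of_supp P hP h hv) ?_
      rw [nx_eq hF hP, ← h1]
    · right
      have h1 : (Walk.cons h.symm P).IsPath := hP.cons hv
      refine hp' v u ?_ ?_
      · intro h0
        apply hv
        rw [h0, ← hruv]
        exact P.end_mem_support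
      · rw [← hruv, nx_eq hF h1, Walk.snd_cons]
  · rcases h with h | h
    · exact (hstep u v h).1
    · exact (hstep v u h).1.symm
  · obtain ⟨hadj, q, hq, hu⟩ := hstep u v h
    obtain ⟨h0, h1⟩ := hp v u h'
    rw [← hrr u v hadj] at h1
    rw [nx_eq hF hq] at h1
    have h2 : q.snd ∈ q.support := Walk.getVert_mem_support _ _
    rw [h1] at h2
    exact hu h2

end Pool.Agent.R944.DB.Par
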