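import Pool.Agent.R944.DB.Stm

/-!
# Selection of the edges of the 6-degenerate part (MP_e7fd15_co, piece DB-SEL)
-/

set_option autoImplicit false

namespace Pool.Agent.R944.DB.Sel

open Finset

theorem main : S_ORD → S_HALL → S_SEL := by
  classical
  intro hord hhall V _ _ out k hk hself _hasym hcard
  obtain ⟨pos, hpos, hsum⟩ := hord V out hself
  obtain ⟨φ, hφ1, hφ2⟩ := hhall V out pos k hk hpos hself hsum
  -- for every vertex a back set of size 5 if there are at least five back out-neighbours
  have hB : ∀ v : V, ∃ B : Finset V,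
      5 ≤ ((out v).filter (fun u => pos u < pos v)).card →
        B ⊆ (out v).filter (fun u => pos u < pos v) ∧ B.card = 5 := by
    intro v
    by_cases h : 5 ≤ ((out v).filter (fun u => pos u < pos v)).card
    · obtain ⟨B, hB1, hB2⟩ := Finset.exists_subset_card_eq h
      exact ⟨B, fun _ => ⟨hB1, hB2⟩⟩
    · exact ⟨∅, fun h' => absurd h' h⟩
  choose B hB using hB
  let sel : V → Finset V := fun v =>
    if (out v).card + 5 ≤ k then ∅
    else if 5 ≤ ((out v).filter (fun u => pos u < pos v)).card then B v
    else univ.image (φ v)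
  have hsel0 : ∀ v, (out v).card + 5 ≤ k → sel v = ∅ := by
    intro v h
    simp only [sel, if_pos h]
  have hsel1 : ∀ v, ¬ (out v).card + 5 ≤ k →
      5 ≤ ((out v).filter (fun u => pos u < pos v)).card → sel v = B v := by
    intro v h h'
    simp only [sel, if_neg h, if_pos h']
  have hsel2 : ∀ v, ¬ (out v).card + 5 ≤ k →
      ¬ 5 ≤ ((out v).filter (fun u => pos u < pos v)).card → sel v = univ.image (φ v) := by
    intro v h h'
    simp only [sel, if_neg h, if_neg h']
  have hsub : ∀ v, sel v ⊆ out v := by
    intro v
    by_cases h : (out v).card + 5 ≤ k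
    · rw [hsel0 v h]; exact Finset.empty_subset _
    · by_cases h' : 5 ≤ ((out v).filter (fun u => pos u < pos v)).card
      · rw [hsel1 v h h']
        exact (hB v h').1.trans (Finset.filter_subset _ _)
      · rw [hsel2 v h h']
        intro u hu
        obtain ⟨i, _, rfl⟩ := Finset.mem_image.1 hu
        exact (hφ1 v (by omega) (by omega) i).1
  have hc5 : ∀ v, ¬ (out v).card + 5 ≤ k → (sel v).card = 5 := by
    intro v h
    by_cases h' : 5 ≤ ((out v).filter (fun u => pos u < pos v)).card
    · rw [hsel1 v h h']
      exact (hB v h').2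
    · rw [hsel2 v h h', Finset.card_image_of_injective]
      · simp
      · intro i j hij
        exact (hφ2 v v i j (by omega) (by omega) (by omega) (by omega) hij).2
  have hcle : ∀ v, (sel v).card ≤ 5 := by
    intro v
    by_cases h : (out v).card + 5 ≤ k
    · rw [hsel0 v h]; simp
    · exact (hc5 v h).le
  refine ⟨pos, sel, hpos, hsub, ?_, ?_⟩
  · intro v
    by_cases h : (out v).card + 5 ≤ k
    · have := Finset.card_le_card (Finset.sdiff_subset (s := out v) (t := sel v))
      omega
    · have h1 := Finset.card_sdiff_of_subset (hsub v)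
      have h2 := hc5 v h
      have h3 := hcard v
      have h4 := Finset.card_le_card (hsub v)
      omega
  · intro w
    have h1 : ((sel w).filter (fun u => pos u < pos w)).card ≤ 5 :=
      (Finset.card_filter_le _ _).trans (hcle w)
    have key : ∀ v, w ∈ sel v → pos v < pos w → ¬ (out v).card + 5 ≤ k ∧
        ¬ 5 ≤ ((out v).filter (fun u => pos u < pos v)).card ∧ ∃ i, φ v i = w := by
      intro v hw hlt
      by_cases h : (out v).card + 5 ≤ k
      · rw [hsel0 v h] at hw; simp at hw
      · by_cases h' : 5 ≤ ((out v).filter (fun u => pos u < pos v)).card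
        · rw [hsel1 v h h'] at hw
          have := (Finset.mem_filter.1 ((hB v h').1 hw)).2
          omega
        · rw [hsel2 v h h'] at hw
          obtain ⟨i, _, hi⟩ := Finset.mem_image.1 hw
          exact ⟨h, h', i, hi⟩
    have h2 : (univ.filter (fun v => w ∈ sel v ∧ pos v < pos w)).card ≤ 1 := by
      rw [Finset.card_le_one]
      intro v hv v' hv'
      obtain ⟨_, ha, hb⟩ := Finset.mem_filter.1 hv
      obtain ⟨_, ha', hb'⟩ := Finset.mem_filter.1 hv'
      obtain ⟨h3, h4, i, hi⟩ := key v ha hb
      obtain ⟨h3', h4', i', hi'⟩ := key v' ha' hb'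
      exact (hφ2 v v' i i' (by omega) (by omega) (by omega) (by omega) (hi.trans hi'.symm)).1
    calc _ ≤ ((sel w).filter (fun u => pos u < pos w)).card +
          (univ.filter (fun v => w ∈ sel v ∧ pos v < pos w)).card := Finset.card_union_le _ _
      _ ≤ 5 + 1 := Nat.add_le_add h1 h2
      _ = 6 := rfl

end Pool.Agent.R944.DB.Sel
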