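import Mathlib

/-!
# Forests of diameter at most 4 (MP_e7fd15_co): statements of the pieces
-/

namespace Pool.Agent.R944.DB

open Finset

/-- An acyclic finite graph has a parent function. -/
def S_PAR : Prop :=
  ∀ (V : Type) [Fintype V] (F : SimpleGraph V), F.IsAcyclic →
    ∃ p : V → Option V, (∀ u v, F.Adj u v ↔ (p u = some v ∨ p v = some u)) ∧
      (∀ u v, p u = some v → p v ≠ some u)

/-- A graph given by a parent function of depth at most two. -/
def S_DEP : Prop :=
  ∀ (V : Type) (K : SimpleGraph V) (g : V → Option V),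
    (∀ u v, K.Adj u v ↔ (g u = some v ∨ g v = some u)) →
    (∀ a b c d, g a = some b → g b = some c → g c = some d → False) →
    K.IsAcyclic ∧ ∀ u v, K.Reachable u v → K.dist u v ≤ 4

/-- The removal order. -/
def S_ORD : Prop :=
  ∀ (V : Type) [Fintype V] [DecidableEq V] (out : V → Finset V), (∀ v, v ∉ out v) →
    ∃ pos : V → ℕ, Function.Injective pos ∧
      ∀ w, ∑ v ∈ univ.filter (fun v => pos v < pos w ∧ w ∈ out v),
        (1 : ℚ) / ((((out v).filter (fun u => pos u ≤ pos w)).card : ℕ) : ℚ) ≤ 1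

/-- The Hall step: low vertices get five private forward out-neighbours. -/
def S_HALL : Prop :=
  ∀ (V : Type) [Fintype V] [DecidableEq V] (out : V → Finset V) (pos : V → ℕ) (k : ℕ),
    4100 ≤ k → Function.Injective pos → (∀ v, v ∉ out v) →
    (∀ w, ∑ v ∈ univ.filter (fun v => pos v < pos w ∧ w ∈ out v),
        (1 : ℚ) / ((((out v).filter (fun u => pos u ≤ pos w)).card : ℕ) : ℚ) ≤ 1) →
    ∃ φ : V → Fin 5 → V,
      (∀ v, k < (out v).card + 5 → ((out v).filter (fun u => pos u < pos v)).card ≤ 4 →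
        ∀ i, φ v i ∈ out v ∧ pos v < pos (φ v i)) ∧
      (∀ v v' i i', k < (out v).card + 5 →
        ((out v).filter (fun u => pos u < pos v)).card ≤ 4 →
        k < (out v').card + 5 → ((out v').filter (fun u => pos u < pos v')).card ≤ 4 →
        φ v i = φ v' i' → v = v' ∧ i = i')

/-- The selection of the edges of the 6-degenerate part. -/
def S_SEL : Prop :=
  ∀ (V : Type) [Fintype V] [DecidableEq V] (out : V → Finset V) (k : ℕ),
    4100 ≤ k → (∀ v, v ∉ out v) → (∀ u v, u ∈ out v → v ∉ out u) → (∀ v, (out v).card ≤ k) →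
    ∃ (pos : V → ℕ) (sel : V → Finset V), Function.Injective pos ∧ (∀ v, sel v ⊆ out v) ∧
      (∀ v, (out v \ sel v).card + 5 ≤ k) ∧
      ∀ w, ((sel w).filter (fun u => pos u < pos w) ∪
        univ.filter (fun v => w ∈ sel v ∧ pos v < pos w)).card ≤ 6

/-- Greedy colouring with nine colours. -/
def S_GRE : Prop :=
  ∀ (V : Type) [Fintype V] [DecidableEq V] (pos : V → ℕ) (ho : V → Finset V),
    (∀ w, ∀ u ∈ ho w, pos u < pos w) → (∀ w, (ho w).card ≤ 6) →
    ∃ c : V → V → Fin 9, (∀ w, Set.InjOn (c w) (ho w)) ∧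
      ∀ w u x y, u ∈ ho w → x ∈ ho u → y ∈ ho x → ¬ (c w u = c u x ∧ c u x = c x y)

/-- Splitting a functional graph. -/
def S_FUN : Prop :=
  ∀ (V : Type) [Fintype V] (f : V → Option V), (∀ v, f v ≠ some v) →
    ∃ χ : V → Bool, ∀ a b c d, f a = some b → f b = some c → f c = some d →
      ¬ (χ a = χ b ∧ χ b = χ c)

/-- `G` is the edge-disjoint union of `m` graphs with property `P`. -/
def Splits {V : Type} (G : SimpleGraph V) (P : SimpleGraph V → Prop) (m : ℕ) : Prop :=
  ∃ f : Fin m → SimpleGraph V,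
    (∀ u v, G.Adj u v ↔ ∃ i, (f i).Adj u v) ∧
    (∀ i j u v, (f i).Adj u v → (f j).Adj u v → i = j) ∧
    ∀ i, P (f i)

/-- A forest all of whose components have diameter at most `d`. -/
def Short {V : Type} (d : ℕ) (F : SimpleGraph V) : Prop :=
  F.IsAcyclic ∧ ∀ u v, F.Reachable u v → F.dist u v ≤ d

/-- The arboricity. -/
noncomputable def arb {V : Type} (G : SimpleGraph V) : ℕ :=
  sInf {m | Splits G (fun F => F.IsAcyclic) m}

/-- `a_d(G)`: least number of forests with components of diameter at most `d`. -/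
noncomputable def arbD {V : Type} (d : ℕ) (G : SimpleGraph V) : ℕ :=
  sInf {m | Splits G (Short d) m}

/-- The main step. -/
def S_MAIN : Prop :=
  ∀ (k : ℕ), 4100 ≤ k → ∀ (V : Type) [Fintype V] (G : SimpleGraph V),
    Splits G (fun F => F.IsAcyclic) k → Splits G (Short 4) (2 * k - 1)

end Pool.Agent.R944.DB
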